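import Pool.Agent.MP_c1891a_nt.H91.Spec

/-
Uniform lower bound for the Mahler measure of the five term polynomials `FP k c a b`.
-/

namespace Pool.Agent.MP_c1891a_nt.H91

open Finset Polynomial

lemma mah_tr1 (w : ℂ) : Real.log ‖(X + C w : ℂ[X]).trailingCoeff‖ = Real.log ‖w‖ := by
  by_cases hw : w = 0
  · subst hw
    simp [trailingCoeff, natTrailingDegree_X]
  · have h0 : (X + C w : ℂ[X]).natTrailingDegree = 0 := by
      rw [natTrailingDegree_eq_zero]
      right
      simpa using hw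
    simp [trailingCoeff, h0]

lemma mah_tr (s : Multiset ℂ) :
    (s.map (fun w => (X + C w : ℂ[X]))).prod ≠ 0 ∧
      Real.log ‖(s.map (fun w => (X + C w : ℂ[X]))).prod.trailingCoeff‖ =
        (s.map (fun w => Real.log ‖w‖)).sum := by
  induction s using Multiset.induction_on with
  | empty => simp [trailingCoeff]
  | cons w s ih =>
    obtain ⟨h1, h2⟩ := ih
    have hw : (X + C w : ℂ[X]) ≠ 0 := X_add_C_ne_zero w
    refine ⟨by simpa [hw] using h1, ?_⟩
    rw [Multiset.map_cons, Multiset.prod_cons, trailingCoeff_mul, norm_mul, Real.log_mul,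
      mah_tr1, h2, Multiset.map_cons, Multiset.sum_cons]
    · simpa [trailingCoeff_eq_zero] using hw
    · simpa [trailingCoeff_eq_zero] using h1

/-- the product of the nonzero values of an integer polynomial at the roots of a monic integer
polynomial has modulus at least one. -/
lemma mah_int (F W : ℤ[X]) (hF : F.Monic) :
    0 ≤ ((F.map (Int.castRingHom ℂ)).roots.map
      (fun α => Real.log ‖(W.map (Int.castRingHom ℂ)).eval α‖)).sum := by
  set ι := Int.castRingHom ℂ with hι
  set f : ℂ[X][X] := (F.map ι).map C with hf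
  set g : ℂ[X][X] := C X + (W.map ι).map C with hg
  have hsp : (F.map ι).Splits := IsAlgClosed.splits _
  have hfs : f.Splits := hsp.map C
  have hfm : f.Monic := (hF.map ι).map C
  have hres := resultant_eq_prod_eval f g g.natDegree le_rfl hfs
  have hroots : f.roots = (F.map ι).roots.map C :=
    hsp.roots_map_of_injective C_injective
  have e1 : f = (F.map C).map (mapRingHom ι) := by
    rw [hf, Polynomial.map_map, Polynomial.map_map]
    congr 1
    ext <;> simp
  have e2 : g = (C X + W.map C).map (mapRingHom ι) := by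
    rw [hg, Polynomial.map_add, Polynomial.map_map, Polynomial.map_map]
    congr 1
    · simp
    · congr 1
      ext <;> simp
  have hR : resultant f g f.natDegree g.natDegree =
      (resultant (F.map C) (C X + W.map C) f.natDegree g.natDegree).map ι := by
    have := resultant_map_map (F.map C) (C X + W.map C) f.natDegree g.natDegree (mapRingHom ι)
    rw [← e1, ← e2] at this
    simpa using this
  set R := resultant (F.map C) (C X + W.map C) f.natDegree g.natDegree
  set s := (F.map ι).roots.map (fun α => (W.map ι).eval α) with hs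
  have hprod : R.map ι = (s.map (fun w => (X + C w : ℂ[X]))).prod := by
    rw [← hR, hres, hfm.leadingCoeff, one_pow, one_mul, hroots, hs, Multiset.map_map,
      Multiset.map_map]
    congr 1
    apply Multiset.map_congr rfl
    intro α _
    simp only [Function.comp, hg, eval_add, eval_C]
    congr 1
    rw [eval_map, eval₂_at_apply]
  obtain ⟨h1, h2⟩ := mah_tr s
  rw [← hprod] at h1 h2
  have h3 : (s.map (fun w => Real.log ‖w‖)).sum =
      ((F.map ι).roots.map (fun α => Real.log ‖(W.map ι).eval α‖)).sum := by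
    rw [hs, Multiset.map_map]
    rfl
  rw [← h3, ← h2]
  apply Real.log_nonneg
  have h4 : (R.map ι).trailingCoeff ≠ 0 := by simpa [trailingCoeff_eq_zero] using h1
  have h5 : (R.map ι).trailingCoeff = ((R.coeff (R.map ι).natTrailingDegree : ℤ) : ℂ) := by
    rw [trailingCoeff, coeff_map]
    simp [hι]
  rw [h5] at h4 ⊢
  rw [Complex.norm_intCast]
  have : R.coeff (R.map ι).natTrailingDegree ≠ 0 := by exact_mod_cast h4
  exact_mod_cast Int.one_le_abs this

lemma mah_frob (F : ℤ[X]) : ∃ W : ℤ[X], expand ℤ 11 F = F ^ 11 + C 11 * W := by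
  haveI : Fact (Nat.Prime 11) := ⟨by norm_num⟩
  have h : (expand ℤ 11 F - F ^ 11).map (Int.castRingHom (ZMod 11)) = 0 := by
    rw [Polynomial.map_sub, map_expand, Polynomial.map_pow, ZMod.expand_card, sub_self]
  have h2 : (C 11 : ℤ[X]) ∣ expand ℤ 11 F - F ^ 11 := by
    rw [C_dvd_iff_dvd_coeff]
    intro i
    have := congrArg (fun q => q.coeff i) h
    simp only [coeff_map, coeff_zero] at this
    exact (ZMod.intCast_zmod_eq_zero_iff_dvd _ 11).1 this
  obtain ⟨W, hW⟩ := h2
  exact ⟨W, by rw [← hW]; ring⟩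

/-- a five term polynomial. -/
noncomputable def mahP (e₁ e₂ e₃ e₄ : ℕ) (c₀ c₁ c₂ c₃ c₄ : ℂ) : ℂ[X] :=
  C c₀ + C c₁ * X ^ e₁ + C c₂ * X ^ e₂ + C c₃ * X ^ e₃ + C c₄ * X ^ e₄

lemma mah_xd (c : ℂ) (e : ℕ) : X * derivative (C c * X ^ e : ℂ[X]) = C (c * e) * X ^ e := by
  rcases e with _ | e
  · simp
  · rw [derivative_C_mul, derivative_X_pow]
    simp only [map_mul, map_natCast, Nat.add_sub_cancel]
    ring

lemma mah_step {e₁ e₂ e₃ e₄ : ℕ} {c₀ c₁ c₂ c₃ c₄ α : ℂ} {n : ℕ} (e : ℂ)
    (h : (X - C α) ^ (n + 1) ∣ mahP e₁ e₂ e₃ e₄ c₀ c₁ c₂ c₃ c₄) :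
    (X - C α) ^ n ∣ mahP e₁ e₂ e₃ e₄ (c₀ * (0 - e)) (c₁ * (e₁ - e)) (c₂ * (e₂ - e))
      (c₃ * (e₃ - e)) (c₄ * (e₄ - e)) := by
  have h1 := pow_sub_one_dvd_derivative_of_pow_dvd h
  rw [Nat.add_sub_cancel] at h1
  have h2 : (X - C α) ^ n ∣ mahP e₁ e₂ e₃ e₄ c₀ c₁ c₂ c₃ c₄ :=
    (pow_dvd_pow _ (Nat.le_succ n)).trans h
  have h3 : mahP e₁ e₂ e₃ e₄ (c₀ * (0 - e)) (c₁ * (e₁ - e)) (c₂ * (e₂ - e))
      (c₃ * (e₃ - e)) (c₄ * (e₄ - e)) =
      X * derivative (mahP e₁ e₂ e₃ e₄ c₀ c₁ c₂ c₃ c₄) - C e * mahP e₁ e₂ e₃ e₄ c₀ c₁ c₂ c₃ c₄ := by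
    simp only [mahP, derivative_add, mul_add, mah_xd, derivative_C]
    simp only [map_mul, map_sub, map_natCast, map_zero]
    ring
  rw [h3]
  exact dvd_sub (h1.mul_left _) (h2.mul_left _)

lemma mah_mult {e₁ e₂ e₃ e₄ : ℕ} (h₁ : e₁ ≠ 0) (h₂ : e₂ ≠ 0) (h₃ : e₃ ≠ 0) (h₄ : e₄ ≠ 0)
    (c₁ c₂ c₃ c₄ α : ℂ) : ¬ (X - C α) ^ 5 ∣ mahP e₁ e₂ e₃ e₄ 1 c₁ c₂ c₃ c₄ := by
  intro h
  have h := mah_step (e₄ : ℂ) (mah_step (e₃ : ℂ) (mah_step (e₂ : ℂ) (mah_step (e₁ : ℂ) h)))
  rw [pow_one, dvd_iff_isRoot] at h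
  simp [mahP, h₁, h₂, h₃, h₄] at h

/-- the Dickson polynomial of degree eleven. -/
def mahD {R : Type*} [CommRing R] (x : R) : R :=
  x ^ 11 - 11 * x ^ 9 + 44 * x ^ 7 - 77 * x ^ 5 + 55 * x ^ 3 - 11 * x

lemma mah_dick {z : ℂ} (hz : z ≠ 0) : mahD (z + z⁻¹) = z ^ 11 + (z ^ 11)⁻¹ := by
  unfold mahD
  field_simp
  ring

lemma mah_quad (S : ℂ) : ∃ T : Finset ℂ, T.card ≤ 2 ∧ ∀ z : ℂ, z ≠ 0 → z + z⁻¹ = S → z ∈ T := by
  classical
  have hne : (X ^ 2 - C S * X + 1 : ℂ[X]) ≠ 0 := by
    intro h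
    have := congrArg (eval 0) h
    simp at this
  refine ⟨(X ^ 2 - C S * X + 1 : ℂ[X]).roots.toFinset, ?_, ?_⟩
  · refine (Multiset.toFinset_card_le _).trans ((card_roots' _).trans ?_)
    compute_degree
  · intro z hz h
    rw [Multiset.mem_toFinset, mem_roots hne, IsRoot.def, ← h]
    simp only [eval_add, eval_sub, eval_pow, eval_X, eval_mul, eval_C, eval_one]
    field_simp
    ring

lemma mah_bad (k : ℤ) (hk : k ≠ 0) (hk' : |k| < 4) (a b : ℕ) (hab : Nat.Coprime a b) :
    ∃ T : Finset ℂ, T.card ≤ 44 ∧ ∀ z : ℂ, z ≠ 0 → PV k 1 (z ^ a) (z ^ b) = 0 →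
      PV k 1 ((z ^ 11) ^ a) ((z ^ 11) ^ b) = 0 → z ∈ T := by
  classical
  set Q : ℂ[X] := mahD X + mahD (-C (k : ℂ) - X) + C (k : ℂ) with hQ
  have hev : ∀ S : ℂ, Q.eval S = mahD S + mahD (-k - S) + k := by
    intro S
    simp [hQ, mahD]
  have hQ0 : Q ≠ 0 := by
    intro h
    have h1 := hev 10
    rw [h, eval_zero] at h1
    have h2 : (mahD (10 : ℤ) + mahD (-k - 10) + k : ℤ) = 0 := by
      have : ((mahD (10 : ℤ) + mahD (-k - 10) + k : ℤ) : ℂ) = 0 := by
        rw [h1]
        simp only [mahD]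
        push_cast
        ring
      exact_mod_cast this
    obtain ⟨h3, h4⟩ := abs_lt.1 hk'
    interval_cases k <;> simp [mahD] at h2 hk
  have hQd : Q.natDegree ≤ 11 := by
    rw [hQ]
    unfold mahD
    compute_degree
  choose T hT hT' using mah_quad
  set U : Finset (ℂ × ℂ) := Q.roots.toFinset.biUnion (fun S => T S ×ˢ T (-k - S)) with hU
  have hUc : U.card ≤ 44 := by
    refine card_biUnion_le.trans ?_
    refine (sum_le_card_nsmul _ _ 4 ?_).trans ?_
    · intro S _
      rw [card_product]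
      exact Nat.mul_le_mul (hT _) (hT _)
    · have := (Multiset.toFinset_card_le _).trans ((card_roots' Q).trans hQd)
      rw [smul_eq_mul]
      omega
  have hinj : Set.InjOn (fun z : ℂ => (z ^ a, z ^ b)) {z | z ≠ 0} := by
    intro z _ w hw h
    have hw : w ≠ 0 := hw
    simp only [Prod.mk.injEq] at h
    have h1 : (z / w) ^ a = 1 := by rw [div_pow, h.1, div_self (pow_ne_zero _ hw)]
    have h2 : (z / w) ^ b = 1 := by rw [div_pow, h.2, div_self (pow_ne_zero _ hw)]
    have h3 := pow_gcd_eq_one.2 ⟨h1, h2⟩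
    rw [hab, pow_one] at h3
    exact (div_eq_one_iff_eq hw).1 h3
  have hfin : ({z : ℂ | z ≠ 0} ∩ (fun z : ℂ => (z ^ a, z ^ b)) ⁻¹' (U : Set (ℂ × ℂ))).Finite := by
    apply Set.Finite.of_finite_image (f := fun z : ℂ => (z ^ a, z ^ b))
    · apply U.finite_toSet.subset
      rintro _ ⟨z, hz, rfl⟩
      exact hz.2
    · exact hinj.mono Set.inter_subset_left
  refine ⟨hfin.toFinset, ?_, ?_⟩
  · refine le_trans ?_ hUc
    apply card_le_card_of_injOn (fun z : ℂ => (z ^ a, z ^ b))
    · intro z hz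
      rw [Set.Finite.coe_toFinset] at hz
      exact hz.2
    · rw [Set.Finite.coe_toFinset]
      exact hinj.mono Set.inter_subset_left
  · intro z hz h1 h2
    rw [Set.Finite.mem_toFinset]
    refine ⟨hz, ?_⟩
    have ha : z ^ a ≠ 0 := pow_ne_zero _ hz
    have hb : z ^ b ≠ 0 := pow_ne_zero _ hz
    have e1 : z ^ b + (z ^ b)⁻¹ = -k - (z ^ a + (z ^ a)⁻¹) := by
      simp only [PV, Int.cast_one, one_mul] at h1
      linear_combination h1
    simp only [Set.mem_preimage, hU, coe_biUnion, Set.mem_iUnion, mem_coe, mem_product]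
    refine ⟨z ^ a + (z ^ a)⁻¹, ?_, hT' _ _ ha rfl, hT' _ _ hb e1⟩
    rw [Multiset.mem_toFinset, mem_roots hQ0, IsRoot.def, hev, ← e1, mah_dick ha, mah_dick hb]
    simp only [PV, Int.cast_one, one_mul] at h2
    rw [← pow_mul, ← pow_mul, mul_comm a, mul_comm b, pow_mul, pow_mul]
    linear_combination h2

lemma mah_eval (k c : ℤ) (a b : ℕ) (z : ℂ) :
    ((FP k c a b).map (Int.castRingHom ℂ)).eval z =
      k * z ^ a + c * (z ^ (2 * a) + 1 + z ^ (a + b) + z ^ (a - b)) := by
  simp [FP]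

lemma mah_eval' (k c : ℤ) {a b : ℕ} (hab : b ≤ a) {z : ℂ} (hz : z ≠ 0) :
    ((FP k c a b).map (Int.castRingHom ℂ)).eval z = z ^ a * PV k c (z ^ a) (z ^ b) := by
  obtain ⟨d, rfl⟩ := Nat.exists_eq_add_of_le hab
  rw [mah_eval, PV, Nat.add_sub_cancel_left]
  field_simp
  ring

lemma mah_deg (k c : ℤ) (hc : c ≠ 0) {a b : ℕ} (hab : b < a) (hb : 0 < b) :
    (FP k c a b).natDegree = 2 * a ∧ (FP k c a b).leadingCoeff = c := by
  have h1 : (FP k c a b).natDegree ≤ 2 * a := by
    unfold FP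
    refine (natDegree_add_le _ _).trans (max_le ?_ ?_)
    · exact (natDegree_C_mul_le _ _).trans (by rw [natDegree_X_pow]; omega)
    · refine (natDegree_C_mul_le _ _).trans ?_
      refine (natDegree_add_le _ _).trans (max_le ((natDegree_add_le _ _).trans (max_le
        ((natDegree_add_le _ _).trans (max_le ?_ ?_)) ?_)) ?_)
      · rw [natDegree_X_pow]
      · simp
      · rw [natDegree_X_pow]; omega
      · rw [natDegree_X_pow]; omega
  have h2 : (FP k c a b).coeff (2 * a) = c := by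
    have e1 : 2 * a ≠ a := by omega
    have e2 : 2 * a ≠ 0 := by omega
    have e3 : 2 * a ≠ a + b := by omega
    have e4 : 2 * a ≠ a - b := by omega
    simp only [FP, coeff_add, coeff_C_mul, coeff_X_pow, coeff_one, e1, e2, e3, e4, if_false,
      if_true]
    ring
  have h3 : (FP k c a b).natDegree = 2 * a :=
    natDegree_eq_of_le_of_coeff_ne_zero h1 (by rw [h2]; exact hc)
  exact ⟨h3, by rw [leadingCoeff, h3, h2]⟩

lemma mah_norm (k : ℤ) (hk' : |k| < 4) {a b : ℕ} (hab : b < a) (z : ℂ) :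
    ‖((FP k 1 a b).map (Int.castRingHom ℂ)).eval z‖ ≤ 7 * max 1 ‖z‖ ^ (2 * a) := by
  have hp : ∀ e, e ≤ 2 * a → ‖z ^ e‖ ≤ max 1 ‖z‖ ^ (2 * a) := by
    intro e he
    rw [norm_pow]
    exact (pow_le_pow_left₀ (norm_nonneg _) (le_max_right _ _) e).trans
      (pow_le_pow_right₀ (le_max_left _ _) he)
  have hk : ‖(k : ℂ)‖ ≤ 3 := by
    rw [Complex.norm_intCast]
    have : |k| ≤ 3 := by omega
    exact_mod_cast this
  rw [mah_eval, Int.cast_one, one_mul]
  have h0 := hp 0 (by omega)
  rw [pow_zero] at h0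
  have h1 := hp a (by omega)
  have h2 := hp (2 * a) le_rfl
  have h3 := hp (a + b) (by omega)
  have h4 := hp (a - b) (by omega)
  have h5 : ‖(k : ℂ) * z ^ a‖ ≤ 3 * max 1 ‖z‖ ^ (2 * a) := by
    rw [norm_mul]
    exact mul_le_mul hk h1 (norm_nonneg _) (by norm_num)
  have h6 := norm_add_le ((k : ℂ) * z ^ a) (z ^ (2 * a) + 1 + z ^ (a + b) + z ^ (a - b))
  have h7 := norm_add_le (z ^ (2 * a) + 1 + z ^ (a + b)) (z ^ (a - b))
  have h8 := norm_add_le (z ^ (2 * a) + 1) (z ^ (a + b))
  have h9 := norm_add_le (z ^ (2 * a)) 1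
  linarith

lemma mah_one (k : ℤ) (hk : k ≠ 0) (hk' : |k| < 4) (a b : ℕ) (hab : b < a)
    (hco : Nat.Coprime a b) (ha : 176 ≤ a) :
    Real.log (11 / 7) / 22 ≤ ((FP k 1 a b).map (Int.castRingHom ℂ)).logMahlerMeasure := by
  classical
  have hb : 0 < b := by
    rcases Nat.eq_zero_or_pos b with h | h
    · subst h
      rw [Nat.coprime_zero_right] at hco
      omega
    · exact h
  obtain ⟨hd, hl⟩ := mah_deg k 1 one_ne_zero hab hb
  have hm : (FP k 1 a b).Monic := hl
  set ι := Int.castRingHom ℂ with hι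
  set F := (FP k 1 a b).map ι with hF
  have hFm : F.Monic := hm.map ι
  have hFd : F.roots.card = 2 * a := by
    rw [← (IsAlgClosed.splits F).natDegree_eq_card_roots, hF, hm.natDegree_map, hd]
  obtain ⟨W, hW⟩ := mah_frob (FP k 1 a b)
  obtain ⟨T, hTc, hT⟩ := mah_bad k hk hk' a b hco
  have hint := mah_int (FP k 1 a b) W hm
  have hroot0 : ∀ z ∈ F.roots, z ≠ 0 ∧ F.eval z = 0 := by
    intro z hz
    have h1 : F.eval z = 0 := (mem_roots hFm.ne_zero).1 hz
    refine ⟨?_, h1⟩
    rintro rfl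
    rw [hF, mah_eval] at h1
    have e1 : a ≠ 0 := by omega
    have e2 : a - b ≠ 0 := by omega
    simp [e1, e2] at h1
  have hfrob : ∀ z ∈ F.roots, F.eval (z ^ 11) = 11 * (W.map ι).eval z := by
    intro z hz
    have h1 := congrArg (fun q => (q.map ι).eval z) hW
    simp only [map_expand, expand_eval, Polynomial.map_add, Polynomial.map_pow,
      Polynomial.map_mul, map_C, eval_add, eval_pow, eval_mul, eval_C] at h1
    rw [← hF, (hroot0 z hz).2] at h1
    rw [h1]
    simp
  have hcount : ∀ z, F.roots.count z ≤ 4 := by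
    intro z
    rw [count_roots]
    by_contra hc
    have h5 : 5 ≤ rootMultiplicity z F := by omega
    rw [le_rootMultiplicity_iff hFm.ne_zero] at h5
    have e : F = mahP a (2 * a) (a + b) (a - b) 1 k 1 1 1 := by
      rw [hF]
      simp [FP, mahP, hι]
      ring
    rw [e] at h5
    exact mah_mult (by omega) (by omega) (by omega) (by omega) _ _ _ _ _ h5
  set bad := F.roots.filter (fun z => F.eval (z ^ 11) = 0) with hbad
  set good := F.roots.filter (fun z => ¬ F.eval (z ^ 11) = 0) with hgood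
  have hbc : bad.card ≤ 176 := by
    rw [← Multiset.toFinset_sum_count_eq]
    refine (sum_le_card_nsmul _ _ 4 ?_).trans ?_
    · intro z _
      exact (Multiset.count_le_of_le z (Multiset.filter_le _ _)).trans (hcount z)
    · have : bad.toFinset.card ≤ T.card := by
        apply card_le_card
        intro z hz
        rw [Multiset.mem_toFinset, hbad, Multiset.mem_filter] at hz
        obtain ⟨h0, h1⟩ := hroot0 z hz.1
        have h2 := hz.2
        rw [hF, mah_eval' k 1 hab.le h0] at h1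
        rw [hF, mah_eval' k 1 hab.le (pow_ne_zero _ h0)] at h2
        exact hT z h0 ((mul_eq_zero.1 h1).resolve_left (pow_ne_zero _ h0))
          ((mul_eq_zero.1 h2).resolve_left (pow_ne_zero _ (pow_ne_zero _ h0)))
      rw [smul_eq_mul]
      omega
  have hsplit : bad + good = F.roots := Multiset.filter_add_not _ _
  have hgc : a ≤ good.card := by
    have := congrArg Multiset.card hsplit
    rw [Multiset.card_add] at this
    omega
  have hL : 0 < Real.log (11 / 7) := Real.log_pos (by norm_num)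
  have hb1 : (bad.map (fun z => Real.log ‖(W.map ι).eval z‖)).sum ≤
      (bad.map (fun z => 22 * a * Real.posLog ‖z‖)).sum := by
    apply Multiset.sum_map_le_sum_map
    intro z hz
    rw [hbad, Multiset.mem_filter] at hz
    have h1 := hfrob z hz.1
    rw [hz.2] at h1
    have h2 : (W.map ι).eval z = 0 := by
      rcases mul_eq_zero.1 h1.symm with h | h
      · norm_num at h
      · exact h
    rw [h2, norm_zero, Real.log_zero]
    have := Real.posLog_nonneg (x := ‖z‖)
    positivity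
  have hg1 : (good.map (fun z => Real.log (11 / 7) + Real.log ‖(W.map ι).eval z‖)).sum ≤
      (good.map (fun z => 22 * a * Real.posLog ‖z‖)).sum := by
    apply Multiset.sum_map_le_sum_map
    intro z hz
    rw [hgood, Multiset.mem_filter] at hz
    have h1 := hfrob z hz.1
    have h2 : (W.map ι).eval z ≠ 0 := by
      intro h
      rw [h, mul_zero] at h1
      exact hz.2 h1
    have h3 := mah_norm k hk' hab (z ^ 11)
    rw [← hι, ← hF, h1, norm_mul] at h3
    have h4 : max 1 ‖z ^ 11‖ ≤ max 1 ‖z‖ ^ 11 := by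
      apply max_le (one_le_pow₀ (le_max_left _ _))
      rw [norm_pow]
      exact pow_le_pow_left₀ (norm_nonneg _) (le_max_right _ _) _
    have h5 : max 1 ‖z ^ 11‖ ^ (2 * a) ≤ max 1 ‖z‖ ^ (22 * a) := by
      rw [show 22 * a = 11 * (2 * a) by ring, pow_mul (max 1 ‖z‖)]
      exact pow_le_pow_left₀ (by positivity) h4 _
    have h6 : ‖(11 : ℂ)‖ = 11 := by simp
    rw [h6] at h3
    have h7 : 0 < ‖(W.map ι).eval z‖ := norm_pos_iff.2 h2
    rw [← Real.log_mul (by norm_num) h7.ne', Real.posLog_eq_log_max_one (norm_nonneg _)]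
    have h8 : (22 : ℝ) * a * Real.log (max 1 ‖z‖) = Real.log (max 1 ‖z‖ ^ (22 * a)) := by
      rw [Real.log_pow]
      push_cast
      ring
    rw [h8]
    apply Real.log_le_log (by positivity)
    linarith
  rw [Multiset.sum_map_add, Multiset.map_const', Multiset.sum_replicate, nsmul_eq_mul] at hg1
  rw [← hι, ← hF, ← hsplit, Multiset.map_add, Multiset.sum_add] at hint
  rw [logMahlerMeasure_eq_log_leadingCoeff_add_sum_log_roots, hFm.leadingCoeff, norm_one,
    Real.log_one, zero_add, ← hsplit, Multiset.map_add, Multiset.sum_add]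
  rw [Multiset.sum_map_mul_left] at hb1 hg1
  have ha' : (0 : ℝ) < a := by
    have : 0 < a := by omega
    exact_mod_cast this
  have hgc' : (a : ℝ) ≤ good.card := by exact_mod_cast hgc
  have h9 := mul_le_mul_of_nonneg_right hgc' hL.le
  rw [div_le_iff₀ (by norm_num)]
  apply le_of_mul_le_mul_left _ ha'
  nlinarith

theorem mah : SMah := by
  intro k c ⟨hk, hkc, _⟩
  have hL : 0 < Real.log (11 / 7) := Real.log_pos (by norm_num)
  have hc : 0 < c := by
    have := abs_nonneg k
    omega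
  refine ⟨Real.log (11 / 7) / 22, by positivity, 176, ?_⟩
  intro a b hab hco ha
  rcases eq_or_lt_of_le (show 1 ≤ c from hc) with h1 | h1
  · subst h1
    exact mah_one k hk (by simpa using hkc) a b hab hco ha
  · have hb : 0 < b := by
      rcases Nat.eq_zero_or_pos b with h | h
      · subst h
        rw [Nat.coprime_zero_right] at hco
        omega
      · exact h
    obtain ⟨-, hl⟩ := mah_deg k c hc.ne' hab hb
    rw [logMahlerMeasure_eq_log_leadingCoeff_add_sum_log_roots,
      leadingCoeff_map_of_injective (RingHom.injective_int _), hl]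
    have h2 : 0 ≤ (((FP k c a b).map (Int.castRingHom ℂ)).roots.map (fun z => Real.posLog ‖z‖)).sum := by
      apply Multiset.sum_nonneg
      intro x hx
      obtain ⟨z, _, rfl⟩ := Multiset.mem_map.1 hx
      exact Real.posLog_nonneg
    have h3 : Real.log (11 / 7) ≤ Real.log ‖(Int.castRingHom ℂ) c‖ := by
      apply Real.log_le_log (by norm_num)
      rw [eq_intCast, Complex.norm_intCast, abs_of_pos (by exact_mod_cast hc)]
      have : (2 : ℝ) ≤ c := by exact_mod_cast h1
      linarith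
    linarith

end Pool.Agent.MP_c1891a_nt.H91
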